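import Pool.Agent.helper12.KZ.Spec
import Pool.Agent.helper3.TY.YWF

/-!
# Row kz:KWX (project kz, MP_baa4d7_al): the extension `kext X (cW l A)`
-/

set_option autoImplicit false

namespace Pool.Agent.KZ

open Pool.Agent.helper58.DC Pool.Agent.DI Pool.Agent.TY

/-- the kernel of `KE X (cW l A) → A × Tp l → A` -/
noncomputable abbrev KWX_H (l : ℕ) {G E A : Type} [Group G] [Group E] [Group A] (X : Extension G E A) :
    Subgroup (KE X (cW l A)) := ((MonoidHom.fst A (Tp l)).comp (kext X (cW l A)).proj).ker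

/-- the inclusion of `TT l A → G` -/
noncomputable def KWX_inc (l : ℕ) {G E A : Type} [Group G] [Group E] [Group A] (X : Extension G E A) :
    (TT l A → G) →* KWX_H l X where
  toFun x := ⟨(kext X (cW l A)).inc x, rfl⟩
  map_one' := Subtype.ext (map_one _)
  map_mul' x y := Subtype.ext (map_mul _ x y)

theorem KWX_l (l : ℕ) {G E A : Type} [Group G] [Group E] [Group A] (X : Extension G E A) (a : G) (ha : a ≠ 1)
    (q : KE X (cW l A)) (hq : ∀ x : TT l A → G, (kext X (cW l A)).inc x * q = q * (kext X (cW l A)).inc x) :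
    q.l.2 = 1 := by
  classical
  by_contra hl
  let t₀ : TT l A := (1 : Tp l)
  have hne : t₀ ≠ q.l • t₀ := by
    intro h
    apply hl
    have h1 : q.l.2 * (1 : Tp l) = (1 : Tp l) := h.symm
    rwa [mul_one] at h1
  have h1 := hq (Pi.mulSingle (q.l • t₀) a)
  have h2 : ((kext X (cW l A)).inc (Pi.mulSingle (q.l • t₀) a) * q).f t₀ =
      (q * (kext X (cW l A)).inc (Pi.mulSingle (q.l • t₀) a)).f t₀ := by rw [h1]
  rw [KE.mul_f, KE.mul_f] at h2
  have h3 : ∀ (x : TT l A → G) (t : TT l A), ((kext X (cW l A)).inc x).f t = X.inc (x t) := fun _ _ => rfl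
  have h4 : ∀ (x : TT l A → G), ((kext X (cW l A)).inc x).l = 1 := fun _ => rfl
  rw [h3, h3, h4, one_smul, Pi.mulSingle_eq_same, Pi.mulSingle_eq_of_ne hne, map_one, mul_one] at h2
  have h5 : X.inc a = 1 := mul_eq_right.mp h2
  exact ha (X.inc_injective (by rw [h5, map_one]))

theorem KWX_op (p l : ℕ) (G E A : Type) [Group G] [Group E] [Group A] (X : Extension G E A) (hnt : Nontrivial G)
    (hop : IsOp p (⊤ : Subgroup (TT l A → G)) ⊥) : IsOp p (⊤ : Subgroup (KWX_H l X)) ⊥ := by
  refine ⟨⟨bot_le, IsPGroup.of_bot, ?_⟩, ?_⟩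
  · intro x _
    rw [Subgroup.mem_normalizer_iff]
    intro h
    simp
  · rintro Q ⟨-, hQp, hQn⟩
    have hinj : Function.Injective (KWX_inc l X) := fun x y h =>
      (kext X (cW l A)).inc_injective (congrArg Subtype.val h)
    have hN : ∀ q ∈ Q, ∀ x : KWX_H l X, x * q * x⁻¹ ∈ Q := by
      intro q hq x
      have h1 := hQn (Subgroup.mem_top x)
      rw [Subgroup.mem_normalizer_iff] at h1
      exact (h1 q).1 hq
    have hcom : Q.comap (KWX_inc l X) ≤ ⊥ := by
      apply hop.2
      refine ⟨le_top, ?_, ?_⟩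
      · exact hQp.comap_of_injective _ hinj
      · intro x _
        rw [Subgroup.mem_normalizer_iff]
        intro h
        simp only [Subgroup.mem_comap, map_mul, map_inv]
        constructor
        · intro h1
          exact hN _ h1 _
        · intro h1
          have h2 := hN _ h1 (KWX_inc l X x)⁻¹
          have h3 : (KWX_inc l X x)⁻¹ * (KWX_inc l X x * KWX_inc l X h * (KWX_inc l X x)⁻¹) *
              (KWX_inc l X x)⁻¹⁻¹ = KWX_inc l X h := by group
          rwa [h3] at h2
    have hker : ∀ q ∈ Q, q.1.l = 1 → q = 1 := by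
      intro q hq h1
      obtain ⟨y, hy⟩ := ((kext X (cW l A)).exact q.1).1 h1
      have hy' : KWX_inc l X y = q := Subtype.ext hy
      have h2 : y ∈ Q.comap (KWX_inc l X) := by
        rw [Subgroup.mem_comap, hy']
        exact hq
      have h3 := hcom h2
      rw [Subgroup.mem_bot] at h3
      rw [← hy', h3, map_one]
    obtain ⟨a, ha⟩ := exists_ne (1 : G)
    intro q hq
    rw [Subgroup.mem_bot]
    apply hker q hq
    have hc : ∀ x : TT l A → G, (kext X (cW l A)).inc x * q.1 = q.1 * (kext X (cW l A)).inc x := by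
      intro x
      have h1 : KWX_inc l X x * q * (KWX_inc l X x)⁻¹ * q⁻¹ = 1 := by
        apply hker
        · exact Q.mul_mem (hN q hq _) (Q.inv_mem hq)
        · change (1 : A × Tp l) * q.1.l * (1 : A × Tp l)⁻¹ * q.1.l⁻¹ = 1
          group
      rw [mul_inv_eq_one, mul_inv_eq_iff_eq_mul] at h1
      exact congrArg Subtype.val h1
    have h1 : q.1.l.1 = 1 := q.2
    exact Prod.ext h1 (KWX_l l X a ha q.1 hc)

theorem KWX (hSK : SK_stmt) (_hPT : PT_stmt) : KWX_stmt := by
  intro p l _ _ G E A _ _ _ _ _ X hnt hop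
  have : NeZero l := ⟨(Fact.out : l.Prime).ne_zero⟩
  have hfA : Finite A := Finite.of_surjective X.proj X.proj_surjective
  have hop' : IsOp p (⊤ : Subgroup (TT l A → G)) ⊥ := YWF_pi p G (TT l A) hop
  have hcard : Nat.card (Tp l) = l := by
    have h1 : Nat.card (Tp l) = Nat.card (ZMod l) := Nat.card_congr Multiplicative.toAdd
    rw [h1, Nat.card_zmod]
  refine ⟨?_, hop', KWX_op p l G E A X hnt hop', ?_, ?_, ?_⟩
  · exact (hSK G E A (A × Tp l) (TT l A) X (cW l A) ⊥).2.2.1 inferInstance inferInstance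
  · have e : (MonoidHom.fst A (Tp l)).ker ≃ Tp l :=
      { toFun := fun x => x.1.2
        invFun := fun t => ⟨(1, t), rfl⟩
        left_inv := fun x => Subtype.ext (Prod.ext (show (1 : A) = x.1.1 from (show x.1.1 = 1 from x.2).symm) rfl)
        right_inv := fun _ => rfl }
    rw [Nat.card_congr e, hcard]
  · intro a k hk
    have h1 : k.1 = 1 := hk
    exact Prod.ext (by rw [Prod.fst_mul, Prod.fst_mul, h1, mul_one, one_mul]) (mul_comm a.2 k.2)
  · have h1 : (⊤ : Subgroup A).prod ⊥ ⊓ (MonoidHom.fst A (Tp l)).ker = (⊥ : Subgroup (A × Tp l)) := by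
      rw [eq_bot_iff]
      rintro x ⟨hx1, hx2⟩
      have h2 : x.1 = 1 := hx2
      have h3 : x.2 = 1 := (Subgroup.mem_prod.mp hx1).2
      rw [Subgroup.mem_bot]
      exact Prod.ext h2 h3
    rw [h1, Subgroup.card_bot]

end Pool.Agent.KZ
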